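import Mathlib
import Pool.Agent.H.MP_7d3ffc_al.SP.Sl
import Pool.Agent.H.MP_7d3ffc_al.SP.Th
import Pool.Agent.H.MP_7d3ffc_al.DN.Bt

/-!
# Linear constituents in the defining characteristic

`χ` is the character of the irreducible complex representation `ρ` of the finite group `G` on `V`. The
definitions of `Factor`, `BNFactor` and `SplitBN` are in the modules SP/Fac and LC/BnD.
-/

namespace Pool.Agent.Results.MP_7d3ffc_al.DefiningCharacteristic

open Pool.Agent.H.MP_7d3ffc_al Matrix Module

/-- Let `G` be a finite group with a normal subgroup of index prime to `p` which is a homomorphic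
image of a direct product of finite groups `S i`, each of which is isomorphic to a special linear group over a
finite field of characteristic `p`, or to a symplectic group over such a field with more than `p` elements, or
has a split BN-pair of characteristic `p` such that all nontrivial linear characters of the unipotent
subgroup have at least `p` conjugates under `B` (and two conditions on it, see `BNFactor`). Let `P` be a Sylow
`p`-subgroup of `G` and `χ` an irreducible character of `G` with `p ∣ χ(1)` such that `χ_P` has a linear
constituent. Then `χ_P` has at least `p` different linear constituents. -/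
theorem result.{u, v, w} {G : Type u} [Group G] [Finite G] {p : ℕ} [Fact p.Prime] {k : ℕ}
    {S : Fin k → Type w} [∀ i, Group (S i)] [∀ i, Finite (S i)] (hS : ∀ i, SP.Factor p (S i))
    (π : (∀ i, S i) →* G) (hN : π.range.Normal) (hidx : ¬ p ∣ π.range.index) (P : Sylow p G)
    {V : Type v} [AddCommGroup V] [Module ℂ V] [FiniteDimensional ℂ V]
    (ρ : Representation ℂ G V) (hρ : ρ.IsIrreducible) (hd : p ∣ finrank ℂ V)
    (hne : (Lin ρ (P : Subgroup G)).Nonempty) : p ≤ (Lin ρ (P : Subgroup G)).ncard :=
  SP.main_v4 hS π hN hidx P ρ hρ hd hne

/-- Q1 for all groups between the special and the general linear group over a finite field of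
characteristic `p`. -/
theorem of_between {n : ℕ} {F : Type*} [Field F] [Finite F] {p : ℕ} [Fact p.Prime] [CharP F p]
    (G : Subgroup (GL (Fin n) F))
    (hG : ∀ s : SpecialLinearGroup (Fin n) F, SpecialLinearGroup.toGL s ∈ G)
    {V : Type*} [AddCommGroup V] [Module ℂ V] [FiniteDimensional ℂ V]
    (P : Sylow p G) (ρ : Representation ℂ G V) (hρ : ρ.IsIrreducible) (hd : p ∣ finrank ℂ V)
    (hne : (Lin ρ (P : Subgroup G)).Nonempty) : p ≤ (Lin ρ (P : Subgroup G)).ncard :=
  DN.between G hG P ρ hρ hd hne

/-- Q1 for the symplectic groups over a finite field of characteristic `p` with more than `p` elements. -/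
theorem of_symplectic {n : ℕ} {F : Type*} [Field F] [Finite F] {p : ℕ} [Fact p.Prime] [CharP F p]
    (hq : p < Nat.card F) {V : Type*} [AddCommGroup V] [Module ℂ V] [FiniteDimensional ℂ V]
    (P : Sylow p (symplecticGroup (Fin n) F))
    (ρ : Representation ℂ (symplecticGroup (Fin n) F) V) (hρ : ρ.IsIrreducible)
    (hd : p ∣ finrank ℂ V) (hne : (Lin ρ (P : Subgroup (symplecticGroup (Fin n) F))).Nonempty) :
    p ≤ (Lin ρ (P : Subgroup (symplecticGroup (Fin n) F))).ncard :=
  SP.main_sp hq P ρ hρ hd hne

/-- The conditions of `BNFactor` are satisfied by the special linear groups over the fields with more than `p`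
elements (upper unitriangular, upper triangular, monomial matrices, permutations, inversions). -/
theorem factor_of_sl {n : ℕ} {F : Type*} [Field F] [Finite F] {p : ℕ} [Fact p.Prime] [CharP F p]
    (hq : p < Nat.card F) : LC.BNFactor p (SpecialLinearGroup (Fin n) F) :=
  SP.bn_of_sl hq

end Pool.Agent.Results.MP_7d3ffc_al.DefiningCharacteristic
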