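import Mathlib
import Pool.Agent.H.MP_7d3ffc_al.LC.Fin

/-!
# A criterion for the number of linear constituents

`χ` is the character of the irreducible complex representation `ρ` of the finite group `G` on `V`. The
definitions `Sta`, `Good`, `IsTwo`, `IsPar`, `IsExt`, `van`, `cker`, `loc`, `locOne` are in the module
LC/Def.
-/

namespace Pool.Agent.Results.MP_7d3ffc_al.LieCriterion

open Pool.Agent.H.MP_7d3ffc_al Pool.Agent.H.MP_7d3ffc_al.LC Module
open scoped Pointwise

/-- Let the finite group `G` have a normal subgroup of index prime to `p` which is a homomorphic image of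
a direct product of finite groups `S i` such that every nonempty set of less than `p` linear characters
of a Sylow `p`-subgroup of `S i` which is invariant under its normalizer is good. Then every irreducible
character `χ` of `G` with `p ∣ χ(1)` such that `χ_P` has a linear constituent has at least `p` different
linear constituents in `χ_P`, `P` a Sylow `p`-subgroup of `G`. -/
theorem result.{u, v, w} {p : ℕ} [Fact p.Prime] {k : ℕ} {S : Fin k → Type w}
    [∀ i, Group (S i)] [∀ i, Finite (S i)] (Q : ∀ i, Sylow p (S i))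
    (hgood : ∀ i, ∀ L : Set ((Q i : Subgroup (S i)) →* ℂˣ), L.Nonempty → L.ncard < p →
      Sta (Q i : Subgroup (S i)) L → Good p (Q i : Subgroup (S i)) L)
    {G : Type u} [Group G] [Finite G] (π : (∀ i, S i) →* G) (hN : π.range.Normal)
    (hidx : ¬ p ∣ π.range.index) (P : Sylow p G)
    {V : Type v} [AddCommGroup V] [Module ℂ V] [FiniteDimensional ℂ V]
    (ρ : Representation ℂ G V) (hρ : ρ.IsIrreducible) (hd : p ∣ finrank ℂ V)
    (hne : (Lin ρ (P : Subgroup G)).Nonempty) : p ≤ (Lin ρ (P : Subgroup G)).ncard :=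
  main_q1 Q (fun i _ _ _ _ σ hσ hdσ hneσ => crit3 (Q i) (hgood i) σ hσ hdσ hneσ) π hN hidx P ρ hρ
    hd hne

/-- The case in which `G` is generated by the normalizers of the subgroups between `P'` and `P` and
every nontrivial linear character of `P` has at least `p` conjugates under the normalizer of `P`. -/
theorem of_generated {G : Type*} [Group G] [Finite G] {p : ℕ} [Fact p.Prime] (P : Sylow p G)
    (hgen : (⨆ Q ∈ {Q : Subgroup G | ⁅(P : Subgroup G), (P : Subgroup G)⁆ ≤ Q ∧
          Q ≤ (P : Subgroup G)}, Subgroup.normalizer (Q : Set G)) = ⊤)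
    (horb : ∀ μ : (P : Subgroup G) →* ℂˣ, μ ≠ 1 →
      p ≤ {ν : (P : Subgroup G) →* ℂˣ | ∃ g ∈ Subgroup.normalizer ((P : Subgroup G) : Set G),
        ∀ x y : (P : Subgroup G), (y : G) = g * x * g⁻¹ → ν x = μ y}.ncard)
    {V : Type*} [AddCommGroup V] [Module ℂ V] [FiniteDimensional ℂ V]
    (ρ : Representation ℂ G V) (hρ : ρ.IsIrreducible) (hd : p ∣ finrank ℂ V)
    (hne : (Lin ρ (P : Subgroup G)).Nonempty) : p ≤ (Lin ρ (P : Subgroup G)).ncard :=
  of_gen P hgen horb ρ hρ hd hne

/-- The case in which `G` acts doubly transitively on its Sylow `p`-subgroups (with a complement of `P` in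
its normalizer which is also in the normalizer of a second Sylow subgroup), every nontrivial linear
character of `P` has at least `p` conjugates under the normalizer of `P`, and for `p = 2` the quotient
of the normalizer of `P` by `P` is commutative. -/
theorem of_rank_one {G : Type*} [Group G] [Finite G] {p : ℕ} [Fact p.Prime] (P : Sylow p G) (h : G)
    (hG : ∀ g : G, g ∈ Subgroup.normalizer ((P : Subgroup G) : Set G) ∨
      ∃ k ∈ Subgroup.normalizer ((P : Subgroup G) : Set G),
        ∃ k' ∈ Subgroup.normalizer ((P : Subgroup G) : Set G), g = k * h * k')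
    (hN : Subgroup.normalizer ((P : Subgroup G) : Set G) ≤ (P : Subgroup G) ⊔
      (Subgroup.normalizer ((P : Subgroup G) : Set G) ⊓
        MulAut.conj h • Subgroup.normalizer ((P : Subgroup G) : Set G) ⊓
        MulAut.conj h⁻¹ • Subgroup.normalizer ((P : Subgroup G) : Set G)))
    (hab : p ≠ 2 ∨ ∀ a ∈ Subgroup.normalizer ((P : Subgroup G) : Set G),
      ∀ b ∈ Subgroup.normalizer ((P : Subgroup G) : Set G), a * b * a⁻¹ * b⁻¹ ∈ (P : Subgroup G))
    (horb : ∀ μ : (P : Subgroup G) →* ℂˣ, μ ≠ 1 →
      p ≤ {ν : (P : Subgroup G) →* ℂˣ | ∃ g ∈ Subgroup.normalizer ((P : Subgroup G) : Set G),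
        ∀ x y : (P : Subgroup G), (y : G) = g * x * g⁻¹ → ν x = μ y}.ncard)
    {V : Type*} [AddCommGroup V] [Module ℂ V] [FiniteDimensional ℂ V]
    (ρ : Representation ℂ G V) (hρ : ρ.IsIrreducible) (hd : p ∣ finrank ℂ V)
    (hne : (Lin ρ (P : Subgroup G)).Nonempty) : p ≤ (Lin ρ (P : Subgroup G)).ncard :=
  LC.of_rank_one P h hG hN hab horb ρ hρ hd hne

end Pool.Agent.Results.MP_7d3ffc_al.LieCriterion
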