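import Mathlib
import Pool.Agent.H.MP_7d3ffc_al.GLL.Main

/-!
# At least `p` linear constituents under a double coset condition

`χ` is the character of the irreducible complex representation `ρ` of the finite group `G` on `V`.
-/

namespace Pool.Agent.Results.MP_7d3ffc_al.LinAtLeastP

open Pool.Agent.H.MP_7d3ffc_al Module
open scoped Pointwise

/-- Q1 for all finite groups `G` and all irreducible `χ` such that `p` and the order of the derived
subgroup `P'` of a Sylow `p`-subgroup `P` divide `χ(1)`; for instance for all `G` with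
`|P'| ≤ p`. -/
theorem of_card_commutator_dvd {G : Type*} [Group G] [Finite G]
    {V : Type*} [AddCommGroup V] [Module ℂ V] [FiniteDimensional ℂ V]
    {p : ℕ} [Fact p.Prime] (P : Sylow p G)
    (ρ : Representation ℂ G V) (hρ : ρ.IsIrreducible) (hpd : p ∣ finrank ℂ V)
    (hc : Nat.card (⁅(P : Subgroup G), (P : Subgroup G)⁆ : Subgroup G) ∣ finrank ℂ V)
    (hne : (Lin ρ (P : Subgroup G)).Nonempty) :
    p ≤ (Lin ρ (P : Subgroup G)).ncard := by
  obtain ⟨lam, hlam⟩ := hne
  obtain ⟨y, hy0, _⟩ := (mem_Lin_iff ρ _ lam).mp hlam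
  have hdeg0 : finrank ℂ V ≠ 0 := by
    intro h
    have : Subsingleton V := (finrank_zero_iff (R := ℂ) (M := V)).mp h
    exact hy0 (Subsingleton.elim _ _)
  exact card_lin_ge (P : Subgroup G) P.isPGroup' ρ hρ
    (hyp_of_card_dvd P (finrank ℂ V) hdeg0 hpd hc) ⟨lam, hlam⟩

/-- Let `G` be a finite group, `p` a prime, `D` a `p`-subgroup of `G` with derived subgroup `D'` and
`χ` an irreducible character of `G` such that `χ_D` has a linear constituent. Suppose that
(i) for all `g` in `G`,
`1 + v_p(|G : D|) + v_p(|D' : D' ∩ gDg⁻¹|) + v_p(|D' : D' ∩ g⁻¹Dg|)` is at most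
`v_p(χ(1)) + v_p(|D : D ∩ gDg⁻¹|)`, or that
(ii) `D` is a Sylow `p`-subgroup of `G` and `p` and the order of `D'` divide `χ(1)`.
Then `χ_D` has at least `p` different linear constituents. -/
theorem result.{u, v} {G : Type u} [Group G] [Finite G]
    {V : Type v} [AddCommGroup V] [Module ℂ V] [FiniteDimensional ℂ V]
    {p : ℕ} [Fact p.Prime] (D : Subgroup G) (hD : IsPGroup p D)
    (ρ : Representation ℂ G V) (hρ : ρ.IsIrreducible)
    (h : (∀ g : G, 1 + padicValNat p D.index +
        padicValNat p ((MulAut.conj g • D).relIndex ⁅D, D⁆) +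
        padicValNat p ((MulAut.conj g⁻¹ • D).relIndex ⁅D, D⁆) ≤
        padicValNat p (finrank ℂ V) + padicValNat p ((MulAut.conj g • D).relIndex D)) ∨
      (¬ p ∣ D.index ∧ p ∣ finrank ℂ V ∧ Nat.card (⁅D, D⁆ : Subgroup G) ∣ finrank ℂ V))
    (hne : (Lin ρ D).Nonempty) : p ≤ (Lin ρ D).ncard := by
  rcases h with h | ⟨hDi, hpd, hc⟩
  · exact card_lin_ge D hD ρ hρ h hne
  · obtain ⟨P, hP⟩ : ∃ P : Sylow p G, (P : Subgroup G) = D := ⟨hD.toSylow hDi, rfl⟩
    subst hP
    exact of_card_commutator_dvd P ρ hρ hpd hc hne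

end Pool.Agent.Results.MP_7d3ffc_al.LinAtLeastP
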