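import Mathlib
import Pool.Agent.H.MP_7d3ffc_al.ThmA

/-!
# A lower bound for the number of linear constituents of `χ_D`, `D` a `p`-subgroup

`χ` is the character of the irreducible complex representation `ρ` of the finite group `G` on `V`.
-/

namespace Pool.Agent.Results.MP_7d3ffc_al.LinLowerBound

open Pool.Agent.H.MP_7d3ffc_al Module
open scoped Pointwise

/-- Let `D` be a `p`-subgroup of the finite group `G`, let `χ` be an irreducible character of `G`
such that `χ_D` has a linear constituent, and let `H ≤ G` be any subgroup such that `χ_H` has a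
linear constituent and such that `|D' : D' ∩ gHg⁻¹|` divides `p ^ b` for all `g`, `D' = [D, D]`.
Then `χ_D` has at least `1 + (p - 1) (v_p(χ(1)) - v_p(|G : D|) - b)` different linear
constituents. -/
theorem result {G : Type*} [Group G] [Finite G]
    {V : Type*} [AddCommGroup V] [Module ℂ V] [FiniteDimensional ℂ V]
    {p : ℕ} [Fact p.Prime] (D : Subgroup G) (hD : IsPGroup p D)
    (ρ : Representation ℂ G V) (hρ : ρ.IsIrreducible)
    (H : Subgroup G) (hH : (Lin ρ H).Nonempty) (b : ℕ)
    (hb : ∀ g : G, (MulAut.conj g • H).relIndex ⁅D, D⁆ ∣ p ^ b)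
    (hne : (Lin ρ D).Nonempty) :
    1 + (p - 1) * padicValNat p (finrank ℂ V) ≤
      (Lin ρ D).ncard + (p - 1) * (b + padicValNat p D.index) := by
  have := theoremA D hD ρ hρ H hH b hb hne
  omega

end Pool.Agent.Results.MP_7d3ffc_al.LinLowerBound
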